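import Pool.Agent.Lib.BP.Gen

/-!
# Open nondeterministic programs

A program with contents `I` at the beginning and contents `O` at the end; its size is the number of
its states (the places where something is asked).
-/

set_option autoImplicit false

namespace Pool.Agent.Lib.TE

open Pool.Agent.Lib.BP

/-- An open nondeterministic program for inputs `g : A → B`, from contents `I` to contents `O`. -/
structure Prg (A B I O : Type) : Type 1 where
  St : Type
  fin : Fintype St
  query : St → Option A
  init : I → Set (St ⊕ O)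
  step : St → Option B → Set (St ⊕ O)

namespace Prg

variable {A B I O M A' : Type}

/-- The number of states. -/
def size (P : Prg A B I O) : ℕ := @Fintype.card P.St P.fin

/-- `P.Run g x l o`: on the input `g` there is a computation from `x` to the content `o`, and `l` is the
list of the asked addresses. -/
inductive Run (P : Prg A B I O) (g : A → B) : P.St ⊕ O → List A → O → Prop
  | done (o : O) : Run P g (Sum.inr o) [] o
  | step (s : P.St) (x : P.St ⊕ O) (l : List A) (o : O) :
      x ∈ P.step s ((P.query s).map g) → Run P g x l o →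
      Run P g (Sum.inl s) ((P.query s).toList ++ l) o

/-- `P.Rel g i l o`: on the input `g` there is a computation from the content `i` to the content `o`,
and `l` is the list of the asked addresses. -/
def Rel (P : Prg A B I O) (g : A → B) (i : I) (l : List A) (o : O) : Prop :=
  ∃ x ∈ P.init i, P.Run g x l o

/-! ### No states -/

/-- The program without states for a relation. -/
def pu (r : I → O → Prop) : Prg A B I O where
  St := Empty
  fin := inferInstance
  query s := s.elim
  init i := {x | ∃ o, x = Sum.inr o ∧ r i o}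
  step s := s.elim

theorem size_pu (r : I → O → Prop) : (pu r : Prg A B I O).size = 0 := Fintype.card_empty

theorem run_inr {P : Prg A B I O} {g : A → B} {o o' : O} {l : List A}
    (h : P.Run g (Sum.inr o) l o') : l = [] ∧ o' = o := by
  cases h
  exact ⟨rfl, rfl⟩

theorem run_inl {P : Prg A B I O} {g : A → B} {s : P.St} {o : O} {l : List A}
    (h : P.Run g (Sum.inl s) l o) : ∃ x l', x ∈ P.step s ((P.query s).map g) ∧ P.Run g x l' o ∧
      l = (P.query s).toList ++ l' := by
  cases h with
  | step _ x l' _ hx hr => exact ⟨x, l', hx, hr, rfl⟩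

theorem rel_pu {r : I → O → Prop} {g : A → B} {i : I} {l : List A} {o : O} :
    (pu r : Prg A B I O).Rel g i l o ↔ l = [] ∧ r i o := by
  constructor
  · rintro ⟨x, ⟨o', rfl, h⟩, hr⟩
    obtain ⟨h1, h2⟩ := run_inr hr
    rw [h2]
    exact ⟨h1, h⟩
  · rintro ⟨rfl, h⟩
    exact ⟨_, ⟨o, rfl, h⟩, .done o⟩

/-! ### One question -/

/-- The content `m` asks for `a m`; with the answer `b` it goes on with `f m b`. -/
def ask [Fintype M] (a : M → A) (f : M → B → O) : Prg A B M O where
  St := M
  fin := inferInstance
  query m := some (a m)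
  init m := {Sum.inl m}
  step m b := {x | ∃ b', b = some b' ∧ x = Sum.inr (f m b')}

theorem size_ask [Fintype M] (a : M → A) (f : M → B → O) :
    (ask a f : Prg A B M O).size = Fintype.card M := rfl

theorem rel_ask [Fintype M] {a : M → A} {f : M → B → O} {g : A → B} {m : M} {l : List A} {o : O} :
    (ask a f : Prg A B M O).Rel g m l o ↔ l = [a m] ∧ o = f m (g (a m)) := by
  constructor
  · rintro ⟨x, hx, hr⟩
    have hx' : x = Sum.inl m := hx
    subst hx'
    obtain ⟨y, l', hy, hr', rfl⟩ := run_inl (P := (ask a f : Prg A B M O)) hr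
    obtain ⟨b', hb, rfl⟩ := hy
    have hb' : some (g (a m)) = some b' := hb
    rw [Option.some.injEq] at hb'
    obtain ⟨h1, h2⟩ := run_inr hr'
    rw [h1, h2, hb']
    exact ⟨rfl, rfl⟩
  · rintro ⟨rfl, rfl⟩
    exact ⟨_, rfl, Run.step (P := ask a f) m _ [] _ ⟨_, rfl, rfl⟩ (.done _)⟩

/-! ### Composition -/

/-- The states of the second program among the states of the composition. -/
def emb {S T O : Type} : T ⊕ O → (S ⊕ T) ⊕ O := Sum.map Sum.inr id

/-- What follows in the composition. -/
def link (P : Prg A B I M) (Q : Prg A B M O) : P.St ⊕ M → Set ((P.St ⊕ Q.St) ⊕ O)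
  | Sum.inl s => {Sum.inl (Sum.inl s)}
  | Sum.inr m => emb '' Q.init m

/-- Composition. -/
def seq (P : Prg A B I M) (Q : Prg A B M O) : Prg A B I O where
  St := P.St ⊕ Q.St
  fin := by
    letI := P.fin
    letI := Q.fin
    exact inferInstance
  query := Sum.elim P.query Q.query
  init i := {y | ∃ x ∈ P.init i, y ∈ link P Q x}
  step s b := Sum.elim (fun s => {y | ∃ x ∈ P.step s b, y ∈ link P Q x})
    (fun t => emb '' Q.step t b) s

theorem size_seq (P : Prg A B I M) (Q : Prg A B M O) : (P.seq Q).size = P.size + Q.size := by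
  let _ := P.fin
  let _ := Q.fin
  exact Fintype.card_sum

private theorem run_emb {P : Prg A B I M} {Q : Prg A B M O} {g : A → B} {x : Q.St ⊕ O}
    {l : List A} {o : O} (h : Q.Run g x l o) : (P.seq Q).Run g (emb x) l o := by
  induction h with
  | done o => exact .done o
  | step s x l o hx _ ih =>
    exact Run.step (P := P.seq Q) (Sum.inr s) (emb x) l o ⟨x, hx, rfl⟩ ih

private theorem emb_run {P : Prg A B I M} {Q : Prg A B M O} {g : A → B}
    {y : (P.seq Q).St ⊕ O} {l : List A} {o : O} (h : (P.seq Q).Run g y l o) :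
    ∀ x : Q.St ⊕ O, y = emb x → Q.Run g x l o := by
  induction h with
  | done o =>
    intro x hx
    cases x with
    | inl t => cases hx
    | inr o' =>
      have : o = o' := Sum.inr.inj hx
      subst this
      exact .done o
  | step s y l o hy _ ih =>
    intro x hx
    cases x with
    | inl t =>
      have : s = Sum.inr t := Sum.inl.inj hx
      subst this
      obtain ⟨x', h1, h2⟩ := hy
      exact .step t x' l o h1 (ih x' h2.symm)
    | inr o' => cases hx

private theorem run_link {P : Prg A B I M} {Q : Prg A B M O} {g : A → B} {x : P.St ⊕ M}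
    {l : List A} {m : M} (h : P.Run g x l m) {l' : List A} {o : O} (h' : Q.Rel g m l' o) :
    ∃ y ∈ link P Q x, (P.seq Q).Run g y (l ++ l') o := by
  induction h with
  | done m =>
    obtain ⟨z, hz, hr⟩ := h'
    exact ⟨emb z, ⟨z, hz, rfl⟩, run_emb hr⟩
  | step s x l m hx _ ih =>
    obtain ⟨y, hy, hr⟩ := ih h'
    refine ⟨Sum.inl (Sum.inl s), rfl, ?_⟩
    have := Run.step (P := P.seq Q) (Sum.inl s) y (l ++ l') o ⟨x, hx, hy⟩ hr
    rw [List.append_assoc]
    exact this

private theorem link_run {P : Prg A B I M} {Q : Prg A B M O} {g : A → B}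
    {y : (P.seq Q).St ⊕ O} {l : List A} {o : O} (h : (P.seq Q).Run g y l o) :
    ∀ x : P.St ⊕ M, y ∈ link P Q x →
      ∃ l₁ l₂ m, P.Run g x l₁ m ∧ Q.Rel g m l₂ o ∧ l = l₁ ++ l₂ := by
  induction h with
  | done o =>
    intro x hx
    cases x with
    | inl s => cases hx
    | inr m =>
      obtain ⟨z, hz, he⟩ := hx
      refine ⟨[], [], m, .done m, ⟨z, hz, ?_⟩, rfl⟩
      exact emb_run (P := P) (y := Sum.inr o) (.done o) z he.symm
  | step s y l o hy hr ih =>
    intro x hx
    cases x with
    | inl s' =>
      have hs : s = Sum.inl s' := Sum.inl.inj hx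
      subst hs
      obtain ⟨x', h1, h2⟩ := hy
      obtain ⟨l₁, l₂, m, h3, h4, h5⟩ := ih x' h2
      refine ⟨(P.query s').toList ++ l₁, l₂, m, .step s' x' l₁ m h1 h3, h4, ?_⟩
      rw [h5, List.append_assoc]
      rfl
    | inr m =>
      obtain ⟨z, hz, he⟩ := hx
      refine ⟨[], _, m, .done m, ⟨z, hz, ?_⟩, rfl⟩
      exact emb_run (P := P) (Run.step (P := P.seq Q) s y l o hy hr) z he.symm

theorem rel_seq {P : Prg A B I M} {Q : Prg A B M O} {g : A → B} {i : I} {l : List A} {o : O} :
    (P.seq Q).Rel g i l o ↔ ∃ l₁ l₂ m, P.Rel g i l₁ m ∧ Q.Rel g m l₂ o ∧ l = l₁ ++ l₂ := by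
  constructor
  · rintro ⟨y, ⟨x, hx, hy⟩, hr⟩
    obtain ⟨l₁, l₂, m, h1, h2, h3⟩ := link_run hr x hy
    exact ⟨l₁, l₂, m, ⟨x, hx, h1⟩, h2, h3⟩
  · rintro ⟨l₁, l₂, m, ⟨x, hx, h1⟩, h2, rfl⟩
    obtain ⟨y, hy, hr⟩ := run_link h1 h2
    exact ⟨y, ⟨x, hx, hy⟩, hr⟩

/-! ### A part of the content is not changed -/

/-- The program keeps an additional content `m : M`. -/
def frame (P : Prg A B I O) (M : Type) [Fintype M] : Prg A B (I × M) (O × M) where
  St := P.St × M
  fin := by
    letI := P.fin
    exact inferInstance
  query s := P.query s.1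
  init i := Sum.map (fun s => (s, i.2)) (fun o => (o, i.2)) '' P.init i.1
  step s b := Sum.map (fun s' => (s', s.2)) (fun o => (o, s.2)) '' P.step s.1 b

theorem size_frame (P : Prg A B I O) [Fintype M] :
    (P.frame M).size = P.size * Fintype.card M := by
  let _ := P.fin
  exact Fintype.card_prod _ _

private theorem run_frame {P : Prg A B I O} [Fintype M] {g : A → B} {x : P.St ⊕ O} {l : List A}
    {o : O} (h : P.Run g x l o) (m : M) :
    (P.frame M).Run g (Sum.map (fun s => (s, m)) (fun o => (o, m)) x) l (o, m) := by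
  induction h with
  | done o => exact .done _
  | step s x l o hx _ ih => exact Run.step (P := P.frame M) (s, m) _ l _ ⟨x, hx, rfl⟩ ih

private theorem frame_run {P : Prg A B I O} [Fintype M] {g : A → B}
    {y : (P.frame M).St ⊕ (O × M)} {l : List A} {p : O × M} (h : (P.frame M).Run g y l p) :
    ∀ (x : P.St ⊕ O) (m : M), y = Sum.map (fun s => (s, m)) (fun o => (o, m)) x →
      P.Run g x l p.1 ∧ p.2 = m := by
  induction h with
  | done p =>
    intro x m hx
    cases x with
    | inl s => cases hx
    | inr o =>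
      have : p = (o, m) := Sum.inr.inj hx
      subst this
      exact ⟨.done o, rfl⟩
  | step s y l p hy _ ih =>
    intro x m hx
    cases x with
    | inl s' =>
      have : s = (s', m) := Sum.inl.inj hx
      subst this
      obtain ⟨x', h1, h2⟩ := hy
      obtain ⟨h3, h4⟩ := ih x' m h2.symm
      exact ⟨.step s' x' l p.1 h1 h3, h4⟩
    | inr o => cases hx

theorem rel_frame {P : Prg A B I O} [Fintype M] {g : A → B} {i : I × M} {l : List A}
    {o : O × M} : (P.frame M).Rel g i l o ↔ P.Rel g i.1 l o.1 ∧ o.2 = i.2 := by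
  constructor
  · rintro ⟨y, ⟨x, hx, rfl⟩, hr⟩
    obtain ⟨h1, h2⟩ := frame_run hr x i.2 rfl
    exact ⟨⟨x, hx, h1⟩, h2⟩
  · rintro ⟨⟨x, hx, hr⟩, h⟩
    have := run_frame hr i.2
    rw [← h] at this
    refine ⟨_, ⟨x, hx, rfl⟩, ?_⟩
    rw [← h]
    exact this

/-! ### Addresses -/

/-- Renaming of the addresses. -/
def map (P : Prg A' B I O) (e : A' → A) : Prg A B I O where
  St := P.St
  fin := P.fin
  query s := (P.query s).map e
  init := P.init
  step := P.step

theorem size_map (P : Prg A' B I O) (e : A' → A) : (P.map e).size = P.size := rfl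

private theorem run_map {P : Prg A' B I O} {e : A' → A} {g : A → B} {x : P.St ⊕ O}
    {l : List A'} {o : O} (h : P.Run (fun a => g (e a)) x l o) :
    (P.map e).Run g x (l.map e) o := by
  induction h with
  | done o => exact .done _
  | step s x l o hx _ ih =>
    have h1 : x ∈ (P.map e).step s (((P.map e).query s).map g) := by
      have : ((P.map e).query s).map g = (P.query s).map (fun a => g (e a)) := by
        show ((P.query s).map e).map g = _
        rw [Option.map_map]
        rfl
      rw [this]
      exact hx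
    have h2 := Run.step (P := P.map e) s x (l.map e) o h1 ih
    have h3 : ((P.map e).query s).toList ++ l.map e = ((P.query s).toList ++ l).map e := by
      show ((P.query s).map e).toList ++ l.map e = _
      rw [List.map_append]
      cases P.query s <;> rfl
    rw [← h3]
    exact h2

private theorem map_run {P : Prg A' B I O} {e : A' → A} {g : A → B} {x : (P.map e).St ⊕ O}
    {l : List A} {o : O} (h : (P.map e).Run g x l o) :
    ∃ l' : List A', l = l'.map e ∧ P.Run (fun a => g (e a)) x l' o := by
  induction h with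
  | done o => exact ⟨[], rfl, Run.done (P := P) _⟩
  | step s x l o hx _ ih =>
    obtain ⟨l', h1, h2⟩ := ih
    refine ⟨(P.query s).toList ++ l', ?_, Run.step (P := P) s x l' o ?_ h2⟩
    · rw [List.map_append, ← h1]
      congr 1
      show ((P.query s).map e).toList = _
      cases P.query s <;> rfl
    · have : ((P.map e).query s).map g = (P.query s).map (fun a => g (e a)) := by
        show ((P.query s).map e).map g = _
        rw [Option.map_map]
        rfl
      rw [this] at hx
      exact hx

theorem rel_map {P : Prg A' B I O} {e : A' → A} {g : A → B} {i : I} {l : List A} {o : O} :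
    (P.map e).Rel g i l o ↔ ∃ l', l = l'.map e ∧ P.Rel (fun a => g (e a)) i l' o := by
  constructor
  · rintro ⟨x, hx, hr⟩
    obtain ⟨l', h1, h2⟩ := map_run hr
    exact ⟨l', h1, x, hx, h2⟩
  · rintro ⟨l', rfl, x, hx, hr⟩
    exact ⟨x, hx, run_map hr⟩

/-! ### Closed programs -/

/-- The closed program. -/
def toNBP (P : Prg A B Unit Unit) : NBP A B where
  Q := Option (P.St ⊕ Unit)
  fin := by
    letI := P.fin
    exact inferInstance
  start := none
  acc := {some (Sum.inr ())}
  query q := q.elim none (Sum.elim P.query fun _ => none)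
  next q b := match q with
    | none => some '' P.init ()
    | some (Sum.inl s) => some '' P.step s b
    | some (Sum.inr _) => ∅

theorem size_toNBP (P : Prg A B Unit Unit) : P.toNBP.size = P.size + 2 := by
  let _ := P.fin
  show Fintype.card (Option (P.St ⊕ Unit)) = _
  rw [Fintype.card_option, Fintype.card_sum, Fintype.card_unit]
  rfl

private theorem comp_run {P : Prg A B Unit Unit} {g : A → B} {q q' : P.toNBP.Q}
    {l : List P.toNBP.Q} (h : P.toNBP.Comp g q l q') (hq' : q' = some (Sum.inr ())) :
    ∀ x : P.St ⊕ Unit, q = some x → ∃ l' : List A, P.Run g x l' () ∧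
      ∀ p ∈ l, ∀ a, P.toNBP.query p = some a → a ∈ l' := by
  induction h with
  | nil q =>
    intro x hx
    rw [hx] at hq'
    have : x = Sum.inr () := Option.some.inj hq'
    subst this
    exact ⟨[], .done _, fun p hp => absurd hp List.not_mem_nil⟩
  | cons q q₁ l q' hs _ ih =>
    intro x hx
    subst hx
    cases x with
    | inl s =>
      obtain ⟨y, hy, rfl⟩ := hs
      obtain ⟨l', h1, h2⟩ := ih hq' y rfl
      refine ⟨(P.query s).toList ++ l', .step s y l' () hy h1, fun p hp a ha => ?_⟩
      rcases List.mem_cons.1 hp with rfl | hp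
      · have : P.query s = some a := ha
        rw [this]
        simp
      · exact List.mem_append_right _ (h2 p hp a ha)
    | inr u => exact absurd hs (Set.notMem_empty _)

private theorem run_comp {P : Prg A B Unit Unit} {g : A → B} {x : P.St ⊕ Unit} {l : List A}
    {o : Unit} (h : P.Run g x l o) :
    ∃ l', P.toNBP.Comp g (some x) l' (some (Sum.inr ())) := by
  induction h with
  | done o => exact ⟨[], .nil _⟩
  | step s x l o hx _ ih =>
    obtain ⟨l', h⟩ := ih
    exact ⟨some (Sum.inl s) :: l', .cons _ _ _ _ ⟨x, hx, rfl⟩ h⟩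

/-- An accepting computation of the closed program asks addresses of a list `l` which belongs to a
computation of the open program. -/
theorem acc_toNBP {P : Prg A B Unit Unit} {g : A → B} {l : List P.toNBP.Q} {q : P.toNBP.Q}
    (hq : q ∈ P.toNBP.acc) (h : P.toNBP.Comp g P.toNBP.start l q) :
    ∃ l', P.Rel g () l' () ∧ ∀ p ∈ l, ∀ a, P.toNBP.query p = some a → a ∈ l' := by
  have hq' : q = some (Sum.inr ()) := hq
  cases h with
  | nil => cases hq'
  | cons _ q₁ l _ hs h' =>
    obtain ⟨x, hx, rfl⟩ := hs
    obtain ⟨l', h1, h2⟩ := comp_run h' hq' x rfl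
    refine ⟨l', ⟨x, hx, h1⟩, fun p hp a ha => ?_⟩
    rcases List.mem_cons.1 hp with rfl | hp
    · cases ha
    · exact h2 p hp a ha

theorem accepts_toNBP {P : Prg A B Unit Unit} {g : A → B} :
    P.toNBP.Accepts g ↔ ∃ l, P.Rel g () l () := by
  constructor
  · rintro ⟨l, q, hq, h⟩
    obtain ⟨l', h1, -⟩ := acc_toNBP hq h
    exact ⟨l', h1⟩
  · rintro ⟨l, x, hx, h⟩
    obtain ⟨l', h'⟩ := run_comp h
    exact ⟨none :: l', _, rfl, .cons _ _ _ _ ⟨x, hx, rfl⟩ h'⟩

end Prg

end Pool.Agent.Lib.TE
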