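import Pool.Agent.Lib.MP_9dcf40_lc.TE.Prg

/-!
# The induction step: contents are stored in a set without 3-term progressions

`Cal val tr σ`: for all finite sets of contents `C`, `F` and all relations `φ z` on `F` there is a
program with at most `σ |C| |F|` states which leads from the content `(c, f)` exactly to the contents
`(c, f')` with `φ (val g) f f'`, and which asks on such a computation only addresses with `tr g`.
-/

set_option autoImplicit false

namespace Pool.Agent.Lib.TE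

open Finset

/-- An update of the content with at most `s` states. -/
def Upd (A B M : Type) (u : (A → B) → M → M → Prop) (tr : (A → B) → A → Prop) (s : ℕ) : Prop :=
  ∃ P : Prg A B M M, P.size ≤ s ∧ ∀ g m m', ((∃ l, P.Rel g m l m') ↔ u g m m') ∧
    ∀ l, P.Rel g m l m' → ∀ a ∈ l, tr g a

/-- A procedure for the value `val`, which can be called with any content. -/
def Cal {A B Z : Type} (val : (A → B) → Z) (tr : (A → B) → A → Prop) (σ : ℕ → ℕ → ℕ) : Prop :=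
  ∀ (C F : Type) [Fintype C] [Fintype F] (φ : Z → F → F → Prop),
    Upd A B (C × F) (fun g p p' => p'.1 = p.1 ∧ φ (val g) p.2 p'.2) tr
      (σ (Fintype.card C) (Fintype.card F))

section Upd

variable {A B M M' A' : Type} {u u' : (A → B) → M → M → Prop} {tr tr' : (A → B) → A → Prop}
  {s s' : ℕ}

theorem Upd.congr (h : Upd A B M u tr s) (hu : ∀ g m m', u g m m' ↔ u' g m m')
    (htr : ∀ g a, tr g a → tr' g a) (hs : s ≤ s') : Upd A B M u' tr' s' := by
  obtain ⟨P, h1, h2⟩ := h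
  exact ⟨P, h1.trans hs, fun g m m' => ⟨((h2 g m m').1).trans (hu g m m'),
    fun l hl a ha => htr g a ((h2 g m m').2 l hl a ha)⟩⟩

theorem Upd.nil : Upd A B M (fun _ m m' => m' = m) tr 0 := by
  refine ⟨Prg.pu fun m m' => m' = m, (Prg.size_pu _).le, fun g m m' => ⟨?_, ?_⟩⟩
  · constructor
    · rintro ⟨l, hl⟩
      exact (Prg.rel_pu.1 hl).2
    · intro h
      exact ⟨[], Prg.rel_pu.2 ⟨rfl, h⟩⟩
  · intro l hl a ha
    rw [(Prg.rel_pu.1 hl).1] at ha
    exact absurd ha List.not_mem_nil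

theorem Upd.seq (h : Upd A B M u tr s) (h' : Upd A B M u' tr s') :
    Upd A B M (fun g m m' => ∃ n, u g m n ∧ u' g n m') tr (s + s') := by
  obtain ⟨P, h1, h2⟩ := h
  obtain ⟨Q, h3, h4⟩ := h'
  refine ⟨P.seq Q, ?_, fun g m m' => ⟨?_, ?_⟩⟩
  · rw [Prg.size_seq]
    exact Nat.add_le_add h1 h3
  · constructor
    · rintro ⟨l, hl⟩
      obtain ⟨l₁, l₂, n, h5, h6, -⟩ := Prg.rel_seq.1 hl
      exact ⟨n, (h2 g m n).1.1 ⟨l₁, h5⟩, (h4 g n m').1.1 ⟨l₂, h6⟩⟩
    · rintro ⟨n, h5, h6⟩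
      obtain ⟨l₁, h7⟩ := (h2 g m n).1.2 h5
      obtain ⟨l₂, h8⟩ := (h4 g n m').1.2 h6
      exact ⟨l₁ ++ l₂, Prg.rel_seq.2 ⟨l₁, l₂, n, h7, h8, rfl⟩⟩
  · intro l hl a ha
    obtain ⟨l₁, l₂, n, h5, h6, rfl⟩ := Prg.rel_seq.1 hl
    rcases List.mem_append.1 ha with ha | ha
    · exact (h2 g m n).2 l₁ h5 a ha
    · exact (h4 g n m').2 l₂ h6 a ha

theorem Upd.equiv {v : (A → B) → M' → M' → Prop} (e : M ≃ M') (h : Upd A B M' v tr s) :
    Upd A B M (fun g m m' => v g (e m) (e m')) tr s := by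
  obtain ⟨P, h1, h2⟩ := h
  refine ⟨((Prg.pu fun m n => n = e m).seq P).seq (Prg.pu fun n m => m = e.symm n), ?_,
    fun g m m' => ⟨?_, ?_⟩⟩
  · rw [Prg.size_seq, Prg.size_seq, Prg.size_pu, Prg.size_pu]
    omega
  · constructor
    · rintro ⟨l, hl⟩
      obtain ⟨l₁, l₂, n, h5, h6, -⟩ := Prg.rel_seq.1 hl
      obtain ⟨l₃, l₄, n', h7, h8, -⟩ := Prg.rel_seq.1 h5
      have h9 := (Prg.rel_pu.1 h6).2
      have h10 := (Prg.rel_pu.1 h7).2
      rw [h9, ← h10, Equiv.apply_symm_apply]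
      exact (h2 g n' n).1.1 ⟨l₄, h8⟩
    · intro h5
      obtain ⟨l, hl⟩ := (h2 g _ _).1.2 h5
      refine ⟨l, Prg.rel_seq.2 ⟨l, [], e m', Prg.rel_seq.2 ⟨[], l, e m, Prg.rel_pu.2 ⟨rfl, rfl⟩,
        hl, rfl⟩, Prg.rel_pu.2 ⟨rfl, (e.symm_apply_apply m').symm⟩, (List.append_nil l).symm⟩⟩
  · intro l hl a ha
    obtain ⟨l₁, l₂, n, h5, h6, rfl⟩ := Prg.rel_seq.1 hl
    obtain ⟨l₃, l₄, n', h7, h8, rfl⟩ := Prg.rel_seq.1 h5
    rw [(Prg.rel_pu.1 h6).1, (Prg.rel_pu.1 h7).1, List.append_nil, List.nil_append] at ha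
    exact (h2 g n' n).2 l₄ h8 a ha

theorem Cal.map {Z : Type} {val : (A' → B) → Z} {tr₁ : (A' → B) → A' → Prop}
    {σ : ℕ → ℕ → ℕ} (h : Cal val tr₁ σ) (e : A' → A)
    (htr : ∀ (g : A → B) a, tr₁ (fun a => g (e a)) a → tr g (e a)) :
    Cal (fun g : A → B => val fun a => g (e a)) tr σ := by
  intro C F _ _ φ
  obtain ⟨P, h1, h2⟩ := h C F φ
  refine ⟨P.map e, by rw [Prg.size_map]; exact h1, fun g m m' => ⟨?_, ?_⟩⟩
  · rw [← (h2 (fun a => g (e a)) m m').1]
    constructor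
    · rintro ⟨l, hl⟩
      obtain ⟨l', -, h3⟩ := Prg.rel_map.1 hl
      exact ⟨l', h3⟩
    · rintro ⟨l, hl⟩
      exact ⟨l.map e, Prg.rel_map.2 ⟨l, rfl, hl⟩⟩
  · intro l hl a ha
    obtain ⟨l', rfl, h3⟩ := Prg.rel_map.1 hl
    obtain ⟨a', ha', rfl⟩ := List.mem_map.1 ha
    exact htr g a' ((h2 _ m m').2 l' h3 a' ha')

theorem Cal.mono {Z : Type} {val : (A → B) → Z} {σ τ : ℕ → ℕ → ℕ} (h : Cal val tr σ)
    (hσ : ∀ c f, σ c f ≤ τ c f) : Cal val tr τ := fun C F _ _ φ =>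
  (h C F φ).congr (fun _ _ _ => Iff.rfl) (fun _ _ h => h) (hσ _ _)

end Upd

section Reg

variable {A B W : Type} {tr : (A → B) → A → Prop} {D Q : ℕ}

/-- `v` is added to the registers. -/
def Radd (v : (A → B) → Fin D → ℕ) (g : A → B) (m m' : (Fin D → Fin Q) × W) : Prop :=
  m'.2 = m.2 ∧ ∀ d, (m'.1 d : ℕ) = m.1 d + v g d

/-- `v` is subtracted from the registers. -/
def Rsub (v : (A → B) → Fin D → ℕ) (g : A → B) (m m' : (Fin D → Fin Q) × W) : Prop :=
  m'.2 = m.2 ∧ ∀ d, (m'.1 d : ℕ) + v g d = m.1 d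

theorem radd_all {n : ℕ} (v : Fin n → (A → B) → Fin D → ℕ) (s : Fin n → ℕ)
    (h : ∀ i, Upd A B ((Fin D → Fin Q) × W) (Radd (v i)) tr (s i)) :
    Upd A B ((Fin D → Fin Q) × W) (Radd fun g d => ∑ i, v i g d) tr (∑ i, s i) := by
  induction n with
  | zero =>
    refine Upd.nil.congr (fun g m m' => ?_) (fun _ _ h => h) le_rfl
    constructor
    · rintro rfl
      exact ⟨rfl, fun d => by simp⟩
    · rintro ⟨h1, h2⟩
      refine Prod.ext (funext fun d => Fin.ext ?_) h1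
      rw [h2 d]
      simp
  | succ n ih =>
    rw [Fin.sum_univ_castSucc]
    refine ((ih (fun i => v i.castSucc) (fun i => s i.castSucc) fun i => h i.castSucc).seq
      (h (Fin.last n))).congr (fun g m m' => ?_) (fun _ _ h => h) le_rfl
    constructor
    · rintro ⟨r, ⟨h1, h2⟩, h3, h4⟩
      refine ⟨h3.trans h1, fun d => ?_⟩
      show (m'.1 d : ℕ) = m.1 d + ∑ i, v i g d
      rw [Fin.sum_univ_castSucc, h4 d, h2 d, add_assoc]
    · rintro ⟨h1, h2⟩
      have h2' : ∀ d, (m'.1 d : ℕ) = m.1 d + ∑ i, v i g d := h2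
      refine ⟨(fun d => ⟨m.1 d + ∑ i : Fin n, v i.castSucc g d, ?_⟩, m.2), ⟨rfl, fun d => rfl⟩,
        h1, fun d => ?_⟩
      · have h3 := h2' d
        have h4 := (m'.1 d).isLt
        rw [Fin.sum_univ_castSucc] at h3
        omega
      · rw [h2' d, Fin.sum_univ_castSucc]
        show _ = (m.1 d : ℕ) + ∑ i : Fin n, v i.castSucc g d + _
        rw [add_assoc]

theorem rsub_all {n : ℕ} (v : Fin n → (A → B) → Fin D → ℕ) (s : Fin n → ℕ)
    (h : ∀ i, Upd A B ((Fin D → Fin Q) × W) (Rsub (v i)) tr (s i)) :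
    Upd A B ((Fin D → Fin Q) × W) (Rsub fun g d => ∑ i, v i g d) tr (∑ i, s i) := by
  induction n with
  | zero =>
    refine Upd.nil.congr (fun g m m' => ?_) (fun _ _ h => h) le_rfl
    constructor
    · rintro rfl
      exact ⟨rfl, fun d => by simp⟩
    · rintro ⟨h1, h2⟩
      refine Prod.ext (funext fun d => Fin.ext ?_) h1
      rw [← h2 d]
      simp
  | succ n ih =>
    rw [Fin.sum_univ_castSucc]
    refine ((ih (fun i => v i.castSucc) (fun i => s i.castSucc) fun i => h i.castSucc).seq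
      (h (Fin.last n))).congr (fun g m m' => ?_) (fun _ _ h => h) le_rfl
    constructor
    · rintro ⟨r, ⟨h1, h2⟩, h3, h4⟩
      refine ⟨h3.trans h1, fun d => ?_⟩
      show (m'.1 d : ℕ) + ∑ i, v i g d = m.1 d
      rw [Fin.sum_univ_castSucc, ← h2 d, ← h4 d]
      ring
    · rintro ⟨h1, h2⟩
      have h2' : ∀ d, (m'.1 d : ℕ) + ∑ i, v i g d = m.1 d := h2
      refine ⟨(fun d => ⟨m'.1 d + v (Fin.last n) g d, ?_⟩, m.2), ⟨rfl, fun d => ?_⟩,
        h1, fun d => rfl⟩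
      · have h3 := h2' d
        have h4 := (m.1 d).isLt
        rw [Fin.sum_univ_castSucc] at h3
        omega
      · rw [← h2' d, Fin.sum_univ_castSucc]
        show (m'.1 d : ℕ) + v (Fin.last n) g d + ∑ i : Fin n, v i.castSucc g d = _
        ring

/-- The registers outside of `S` are not changed. -/
def split (S : Finset (Fin D)) (Q : ℕ) (W : Type) :
    ((Fin D → Fin Q) × W) ≃ (W × ({d // d ∉ S} → Fin Q)) × ({d // d ∈ S} → Fin Q) where
  toFun m := ((m.2, fun d => m.1 d), fun d => m.1 d)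
  invFun p := (fun d => if h : d ∈ S then p.2 ⟨d, h⟩ else p.1.2 ⟨d, h⟩, p.1.1)
  left_inv m := by
    refine Prod.ext (funext fun d => ?_) rfl
    by_cases h : d ∈ S
    · simp [h]
    · simp [h]
  right_inv p := by
    refine Prod.ext (Prod.ext rfl (funext fun d => ?_)) (funext fun d => ?_)
    · simp [d.2]
    · simp [d.2]

private theorem card_split (S : Finset (Fin D)) (Q : ℕ) (W : Type) [Fintype W] :
    Fintype.card (W × ({d // d ∉ S} → Fin Q)) = Fintype.card W * Q ^ (D - S.card) := by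
  rw [Fintype.card_prod, Fintype.card_fun, Fintype.card_fin]
  congr 2
  have := Fintype.card_subtype_compl (fun d => d ∈ S)
  rw [this, Fintype.card_fin, Fintype.card_coe]

variable [Fintype W]

theorem Cal.add {Z : Type} {val : (A → B) → Z} {σ : ℕ → ℕ → ℕ} (h : Cal val tr σ)
    (S : Finset (Fin D)) (inc : Z → Fin D → ℕ) (hS : ∀ z, ∀ d ∉ S, inc z d = 0) :
    Upd A B ((Fin D → Fin Q) × W) (Radd fun g => inc (val g)) tr
      (σ (Fintype.card W * Q ^ (D - S.card)) (Q ^ S.card)) := by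
  have h1 := h (W × ({d // d ∉ S} → Fin Q)) ({d // d ∈ S} → Fin Q)
    (fun z f f' => ∀ d, (f' d : ℕ) = f d + inc z d)
  rw [card_split, Fintype.card_fun, Fintype.card_fin, Fintype.card_coe] at h1
  refine (h1.equiv (split S Q W)).congr (fun g m m' => ?_) (fun _ _ h => h) le_rfl
  constructor
  · rintro ⟨h2, h3⟩
    refine ⟨congrArg Prod.fst h2, fun d => ?_⟩
    by_cases hd : d ∈ S
    · exact h3 ⟨d, hd⟩
    · show (m'.1 d : ℕ) = m.1 d + inc (val g) d
      rw [hS _ d hd, add_zero]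
      exact congrArg Fin.val (congrFun (congrArg Prod.snd h2) ⟨d, hd⟩)
  · rintro ⟨h2, h3⟩
    refine ⟨Prod.ext h2 (funext fun d => Fin.ext ?_), fun d => h3 d⟩
    have h4 : (m'.1 d : ℕ) = m.1 d + inc (val g) d := h3 d
    rw [hS _ d d.2, add_zero] at h4
    exact h4

theorem Cal.sub {Z : Type} {val : (A → B) → Z} {σ : ℕ → ℕ → ℕ} (h : Cal val tr σ)
    (S : Finset (Fin D)) (inc : Z → Fin D → ℕ) (hS : ∀ z, ∀ d ∉ S, inc z d = 0) :
    Upd A B ((Fin D → Fin Q) × W) (Rsub fun g => inc (val g)) tr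
      (σ (Fintype.card W * Q ^ (D - S.card)) (Q ^ S.card)) := by
  have h1 := h (W × ({d // d ∉ S} → Fin Q)) ({d // d ∈ S} → Fin Q)
    (fun z f f' => ∀ d, (f' d : ℕ) + inc z d = f d)
  rw [card_split, Fintype.card_fun, Fintype.card_fin, Fintype.card_coe] at h1
  refine (h1.equiv (split S Q W)).congr (fun g m m' => ?_) (fun _ _ h => h) le_rfl
  constructor
  · rintro ⟨h2, h3⟩
    refine ⟨congrArg Prod.fst h2, fun d => ?_⟩
    by_cases hd : d ∈ S
    · exact h3 ⟨d, hd⟩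
    · show (m'.1 d : ℕ) + inc (val g) d = m.1 d
      rw [hS _ d hd, add_zero]
      exact congrArg Fin.val (congrFun (congrArg Prod.snd h2) ⟨d, hd⟩)
  · rintro ⟨h2, h3⟩
    refine ⟨Prod.ext h2 (funext fun d => Fin.ext ?_), fun d => h3 d⟩
    have h4 : (m'.1 d : ℕ) + inc (val g) d = m.1 d := h3 d
    rw [hS _ d d.2, add_zero] at h4
    exact h4

end Reg

/-- **The induction step.** -/
theorem step {A B Z ZC : Type} {D k q Q n : ℕ} (E : Finset (Fin D → ℕ))
    (hE : ThreeAPFree (E : Set (Fin D → ℕ))) (hne : E.Nonempty) (hq : ∀ a ∈ E, ∀ d, a d < q)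
    (hQ : q + 2 * k ≤ Q) (tr : (A → B) → A → Prop)
    (val : Fin n → (A → B) → ZC) (σ : Fin n → ℕ → ℕ → ℕ) (hc : ∀ i, Cal (val i) tr (σ i))
    (S : Fin n → Finset (Fin D)) (inc : Fin n → ZC → Fin D → ℕ)
    (hS : ∀ i z, ∀ d ∉ S i, inc i z d = 0)
    (ext : (A → B) → Fin D → Fin k) (hext : ∀ g d, (ext g d : ℕ) = ∑ i, inc i (val i g) d)
    (blk : Prg A B (Fin D → Fin k) ((Fin D → Fin k) × Z))
    (out : (A → B) → (Fin D → Fin k) → Z)
    (hb1 : ∀ g x l y, blk.Rel g x l y → y = (x, out g x))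
    (hb2 : ∀ g x, ∃ l, blk.Rel g x l (x, out g x))
    (hb3 : ∀ g l y, blk.Rel g (ext g) l y → ∀ a ∈ l, tr g a) :
    Cal (fun g => out g (ext g)) tr (fun c f =>
      2 * ∑ i, σ i ((c / E.card + 1) * f * Q ^ (D - (S i).card)) (Q ^ (S i).card) +
        blk.size * (Q ^ D * ((c / E.card + 1) * f))) := by
  classical
  intro C F _ _ φ
  set R := Fintype.card C / E.card + 1 with hR
  have hE0 : 0 < E.card := hne.card_pos
  -- the code
  obtain ⟨code⟩ : Nonempty (C ↪ {a // a ∈ E} × Fin R) := by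
    refine Function.Embedding.nonempty_of_card_le ?_
    rw [Fintype.card_prod, Fintype.card_coe, Fintype.card_fin, hR]
    exact (Nat.lt_mul_div_succ _ hE0).le
  have hlt : ∀ a ∈ E, ∀ d, a d < Q := fun a ha d => by
    have := hq a ha d
    omega
  let M := (Fin D → Fin Q) × (Fin R × F)
  let P1 : Prg A B (C × F) M := Prg.pu fun p m =>
    (∀ d, (m.1 d : ℕ) = (code p.1).1.1 d) ∧ m.2 = ((code p.1).2, p.2)
  obtain ⟨P2, h2s, h2⟩ := radd_all (fun i g => inc i (val i g))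
    (fun i => σ i (Fintype.card (Fin R × F) * Q ^ (D - (S i).card)) (Q ^ (S i).card))
    (fun i => (hc i).add (Q := Q) (W := Fin R × F) (S i) (inc i) (hS i))
  let P3 : Prg A B M ((Fin D → Fin k) × M) := Prg.pu fun m p =>
    p.2.2 = m.2 ∧ (fun d => (p.2.1 d : ℕ)) ∈ E ∧ ∀ d, (m.1 d : ℕ) = p.2.1 d + p.1 d
  let P4 := blk.frame M
  let P5 : Prg A B (((Fin D → Fin k) × Z) × M) M := Prg.pu fun p m =>
    m.2.1 = p.2.2.1 ∧ φ p.1.2 p.2.2.2 m.2.2 ∧ ∀ d, (m.1 d : ℕ) = p.2.1 d + 2 * p.1.1 d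
  obtain ⟨P6, h6s, h6⟩ := rsub_all (fun i g d => 2 * inc i (val i g) d)
    (fun i => σ i (Fintype.card (Fin R × F) * Q ^ (D - (S i).card)) (Q ^ (S i).card))
    (fun i => (hc i).sub (Q := Q) (W := Fin R × F) (S i) (fun z d => 2 * inc i z d)
      (fun z d hd => by rw [hS i z d hd]))
  let P7 : Prg A B M (C × F) := Prg.pu fun m p =>
    (∀ d, (m.1 d : ℕ) = (code p.1).1.1 d) ∧ m.2 = ((code p.1).2, p.2)
  have hsum : ∀ g d, ∑ i, 2 * inc i (val i g) d = 2 * (ext g d : ℕ) := by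
    intro g d
    rw [hext, Finset.mul_sum]
  refine ⟨P1.seq (P2.seq (P3.seq (P4.seq (P5.seq (P6.seq P7))))), ?_, fun g p p' => ?_⟩
  · rw [Prg.size_seq, Prg.size_seq, Prg.size_seq, Prg.size_seq, Prg.size_seq, Prg.size_seq,
      Prg.size_pu, Prg.size_pu, Prg.size_pu, Prg.size_pu, Prg.size_frame]
    have hM : Fintype.card M = Q ^ D * (R * Fintype.card F) := by
      show Fintype.card ((Fin D → Fin Q) × (Fin R × F)) = _
      rw [Fintype.card_prod, Fintype.card_prod, Fintype.card_fun, Fintype.card_fin,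
        Fintype.card_fin, Fintype.card_fin]
    rw [hM]
    rw [Fintype.card_prod, Fintype.card_fin] at h2s h6s
    show _ ≤ 2 * ∑ i, σ i (R * Fintype.card F * Q ^ (D - (S i).card)) (Q ^ (S i).card) +
        blk.size * (Q ^ D * (R * Fintype.card F))
    omega
  · -- the analysis of a computation
    have key : ∀ l, (P1.seq (P2.seq (P3.seq (P4.seq (P5.seq (P6.seq P7)))))).Rel g p l p' →
        (p'.1 = p.1 ∧ φ (out g (ext g)) p.2 p'.2) ∧ ∀ a ∈ l, tr g a := by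
      intro l hl
      obtain ⟨l1, k1, m1, r1, t1, rfl⟩ := Prg.rel_seq.1 hl
      obtain ⟨l2, k2, m2, r2, t2, rfl⟩ := Prg.rel_seq.1 t1
      obtain ⟨l3, k3, m3, r3, t3, rfl⟩ := Prg.rel_seq.1 t2
      obtain ⟨l4, k4, m4, r4, t4, rfl⟩ := Prg.rel_seq.1 t3
      obtain ⟨l5, k5, m5, r5, t5, rfl⟩ := Prg.rel_seq.1 t4
      obtain ⟨l6, l7, m6, r6, r7, rfl⟩ := Prg.rel_seq.1 t5
      obtain ⟨e1, a1, b1⟩ := Prg.rel_pu.1 r1
      obtain ⟨b2, a2⟩ := (h2 g m1 m2).1.1 ⟨l2, r2⟩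
      obtain ⟨e3, b3, c3, a3⟩ := Prg.rel_pu.1 r3
      obtain ⟨r4', b4⟩ := Prg.rel_frame.1 r4
      have a4 := hb1 g _ _ _ r4'
      obtain ⟨e5, b5, c5, a5⟩ := Prg.rel_pu.1 r5
      obtain ⟨b6, a6⟩ := (h6 g m5 m6).1.1 ⟨l6, r6⟩
      obtain ⟨e7, a7, b7⟩ := Prg.rel_pu.1 r7
      -- the three elements of `E`
      have hx : ∀ d, ((code p.1).1.1 d : ℕ) + (ext g d : ℕ) = (m3.2.1 d : ℕ) + (m3.1 d : ℕ) := by
        intro d
        have a2' : (m2.1 d : ℕ) = m1.1 d + ∑ i, inc i (val i g) d := a2 d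
        rw [← a1 d, ← a3 d, a2', ← hext]
      have hy : ∀ d, ((code p'.1).1.1 d : ℕ) + 2 * (ext g d : ℕ) =
          (m3.2.1 d : ℕ) + 2 * (m3.1 d : ℕ) := by
        intro d
        have h8 : (m6.1 d : ℕ) + ∑ i, 2 * inc i (val i g) d = m5.1 d := a6 d
        rw [hsum] at h8
        rw [← a7 d, h8, a5 d, a4, b4]
      have hap : (fun d => (m3.2.1 d : ℕ)) + (code p'.1).1.1 =
          (code p.1).1.1 + (code p.1).1.1 := by
        funext d
        have h8 := hx d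
        have h9 := hy d
        show (m3.2.1 d : ℕ) + (code p'.1).1.1 d = (code p.1).1.1 d + (code p.1).1.1 d
        omega
      have h10 : (fun d => (m3.2.1 d : ℕ)) = (code p.1).1.1 :=
        hE (Finset.mem_coe.2 c3) (Finset.mem_coe.2 (code p.1).1.2)
          (Finset.mem_coe.2 (code p'.1).1.2) hap
      have h11 : m3.1 = ext g := by
        funext d
        refine Fin.ext ?_
        have h8 := hx d
        have h9 : (m3.2.1 d : ℕ) = (code p.1).1.1 d := congrFun h10 d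
        omega
      have h12 : (code p'.1).1.1 = (code p.1).1.1 := by
        funext d
        have h8 := hy d
        have h9 : (m3.2.1 d : ℕ) = (code p.1).1.1 d := congrFun h10 d
        rw [h11] at h8
        omega
      have h13 : (code p'.1).2 = (code p.1).2 := by
        have e1 : (code p'.1).2 = m6.2.1 := (congrArg Prod.fst b7).symm
        have e2 : m1.2.1 = (code p.1).2 := congrArg Prod.fst b1
        rw [e1, b6, b5, b4, b3, b2, e2]
      have h14 : p'.1 = p.1 := code.injective (Prod.ext (Subtype.ext h12) h13)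
      have h15 : m4.1 = (ext g, out g (ext g)) := by rw [a4, h11]
      have h16 : φ (out g (ext g)) p.2 p'.2 := by
        have e1 : m6.2.2 = p'.2 := congrArg Prod.snd b7
        have e2 : m1.2.2 = p.2 := congrArg Prod.snd b1
        rw [h15] at c5
        rw [b4, b3, b2, e2] at c5
        rw [← e1, b6]
        exact c5
      refine ⟨⟨h14, h16⟩, fun a ha => ?_⟩
      rw [e1, e3, e5, e7] at ha
      simp only [List.nil_append, List.append_nil, List.mem_append] at ha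
      rcases ha with ha | ha | ha
      · exact (h2 g m1 m2).2 l2 r2 a ha
      · rw [h11] at r4'
        exact hb3 g l4 _ r4' a ha
      · exact (h6 g m5 m6).2 l6 r6 a ha
    refine ⟨⟨fun ⟨l, hl⟩ => (key l hl).1, fun ⟨h14, h16⟩ => ?_⟩, fun l hl => (key l hl).2⟩
    -- the computation
    have hk : ∀ d, (ext g d : ℕ) < k := fun d => (ext g d).isLt
    have ha : ∀ d, (code p.1).1.1 d < q := hq _ (code p.1).1.2
    let m1 : M := (fun d => ⟨(code p.1).1.1 d, hlt _ (code p.1).1.2 d⟩, ((code p.1).2, p.2))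
    let m2 : M := (fun d => ⟨(code p.1).1.1 d + ext g d, by
      have := hk d
      have := ha d
      omega⟩, ((code p.1).2, p.2))
    let m5 : M := (fun d => ⟨(code p.1).1.1 d + 2 * ext g d, by
      have := hk d
      have := ha d
      omega⟩, ((code p.1).2, p'.2))
    let m6 : M := (fun d => ⟨(code p.1).1.1 d, hlt _ (code p.1).1.2 d⟩, ((code p.1).2, p'.2))
    obtain ⟨l2, r2⟩ := (h2 g m1 m2).1.2 ⟨rfl, fun d => by
      show (code p.1).1.1 d + (ext g d : ℕ) = (code p.1).1.1 d + _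
      rw [hext]⟩
    obtain ⟨l4, r4⟩ := hb2 g (ext g)
    obtain ⟨l6, r6⟩ := (h6 g m5 m6).1.2 ⟨rfl, fun d => by
      exact congrArg (fun t => (code p.1).1.1 d + t) (hsum g d)⟩
    refine ⟨_, Prg.rel_seq.2 ⟨[], _, m1, Prg.rel_pu.2 ⟨rfl, fun _ => rfl, rfl⟩,
      Prg.rel_seq.2 ⟨l2, _, m2, r2, Prg.rel_seq.2 ⟨[], _, (ext g, m1), Prg.rel_pu.2 ⟨rfl, rfl,
        (code p.1).1.2, fun _ => rfl⟩, Prg.rel_seq.2 ⟨l4, _, ((ext g, out g (ext g)), m1),
          Prg.rel_frame.2 ⟨r4, rfl⟩, Prg.rel_seq.2 ⟨[], _, m5, Prg.rel_pu.2 ⟨rfl, rfl, h16,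
            fun _ => rfl⟩, Prg.rel_seq.2 ⟨l6, [], m6, r6, Prg.rel_pu.2 ⟨rfl, fun d => ?_, ?_⟩,
              rfl⟩, rfl⟩, rfl⟩, rfl⟩, rfl⟩, rfl⟩⟩
    · rw [h14]
    · rw [h14]

end Pool.Agent.Lib.TE
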