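import Pool.Agent.Lib.BP.Defs

/-!
# The tree evaluation problem

The complete tree of degree `d` with `h` levels of inner nodes (so `h + 1` levels). The input gives a
value in `Fin k` for every leaf, and for every inner node `v` a function from `Fin d → Fin k` to
`Fin k`, which gives the value of `v` from the values of its children.
-/

set_option autoImplicit false

namespace Pool.Agent.Lib.TE

open Pool.Agent.Lib.BP

/-- The questions which can be asked about the tree: the value of a leaf, or, for an inner node, the
value of its function at a tuple. `Sum.inl x`: the value of the function of the root at `x`;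
`Sum.inr (i, a)`: the question `a` about the subtree of the child `i` of the root. -/
def Adr (d k : ℕ) : ℕ → Type
  | 0 => Unit
  | h + 1 => (Fin d → Fin k) ⊕ (Fin d × Adr d k h)

/-- The part of the input which belongs to the subtree of the child `i` of the root. -/
def sub {d k h : ℕ} (g : Adr d k (h + 1) → Fin k) (i : Fin d) : Adr d k h → Fin k :=
  fun a => g (Sum.inr (i, a))

/-- The value of the root. -/
def val (d k : ℕ) : (h : ℕ) → (Adr d k h → Fin k) → Fin k
  | 0, g => g ()
  | h + 1, g => g (Sum.inl fun i => val d k h (sub g i))

/-- The thrifty questions for the input `g`: the leaves, and for an inner node the tuple of the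
correct values of its children. -/
def Thr (d k : ℕ) : (h : ℕ) → (Adr d k h → Fin k) → Adr d k h → Prop
  | 0, _, _ => True
  | h + 1, g, Sum.inl x => x = fun i => val d k h (sub g i)
  | h + 1, g, Sum.inr (i, a) => Thr d k h (sub g i) a

/-- `P` is thrifty: for every input, in every accepting computation only thrifty questions are
asked. -/
def Thrifty {d k h : ℕ} (P : NBP (Adr d k h) (Fin k)) : Prop :=
  ∀ (g : Adr d k h → Fin k) (l : List P.Q), ∀ q ∈ P.acc, P.Comp g P.start l q →
    ∀ p ∈ l, ∀ a, P.query p = some a → Thr d k h g a

end Pool.Agent.Lib.TE
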