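import Pool.Agent.Lib.MP_9dcf40_lc.TE.Step
import Pool.Agent.Lib.MP_9dcf40_lc.TE.TreeDefs

/-!
# Thrifty nondeterministic programs for the tree evaluation problem
-/

set_option autoImplicit false

namespace Pool.Agent.Lib.TE

open Finset Pool.Agent.Lib.BP

/-- The size of the procedures; `e` is the size of the set without 3-term progressions. -/
def sg (d k Q e : ℕ) : ℕ → ℕ → ℕ → ℕ
  | 0, c, f => c * f
  | h + 1, c, f => 2 * (d * sg d k Q e h ((c / e + 1) * f * Q ^ (d - 1)) Q) +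
      k ^ d * (Q ^ d * ((c / e + 1) * f))

theorem cal_tree {d k q Q : ℕ} (E : Finset (Fin d → ℕ)) (hE : ThreeAPFree (E : Set (Fin d → ℕ)))
    (hne : E.Nonempty) (hq : ∀ a ∈ E, ∀ i, a i < q) (hQ : q + 2 * k ≤ Q) :
    ∀ h : ℕ, Cal (val d k h) (Thr d k h) (sg d k Q E.card h) := by
  intro h
  induction h with
  | zero =>
    intro C F _ _ φ
    refine ⟨(Prg.ask (A := Adr d k 0) (B := Fin k) (M := C × F) (O := (C × F) × Fin k)
      (fun _ => ()) fun m b => (m, b)).seq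
      (Prg.pu fun (p : (C × F) × Fin k) m => m.1 = p.1.1 ∧ φ p.2 p.1.2 m.2), ?_,
      fun g m m' => ⟨?_, fun l _ a _ => trivial⟩⟩
    · rw [Prg.size_seq, Prg.size_pu, Prg.size_ask, Fintype.card_prod]
      exact le_rfl
    · constructor
      · rintro ⟨l, hl⟩
        obtain ⟨l₁, l₂, n, h1, h2, -⟩ := Prg.rel_seq.1 hl
        have h3 := (Prg.rel_ask.1 h1).2
        have h4 := (Prg.rel_pu.1 h2).2
        rw [h3] at h4
        exact h4
      · intro h1
        exact ⟨_, Prg.rel_seq.2 ⟨[()], [], (m, g ()), Prg.rel_ask.2 ⟨rfl, rfl⟩,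
          Prg.rel_pu.2 ⟨rfl, h1⟩, rfl⟩⟩
  | succ h ih =>
    have h1 := step (A := Adr d k (h + 1)) (B := Fin k) (Z := Fin k) (ZC := Fin k) (n := d)
      E hE hne hq hQ (Thr d k (h + 1)) (fun i g => val d k h (sub g i))
      (fun _ => sg d k Q E.card h)
      (fun i => ih.map (fun a => (Sum.inr (i, a) : Adr d k (h + 1))) fun g a ha => ha)
      (fun i => {i}) (fun i z j => if i = j then (z : ℕ) else 0)
      (fun i z j hj => if_neg fun hh => hj (Finset.mem_singleton.2 hh.symm))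
      (fun g i => val d k h (sub g i))
      (fun g j => by rw [Finset.sum_ite_eq' univ j, if_pos (mem_univ j)])
      (Prg.ask (fun x => (Sum.inl x : Adr d k (h + 1))) fun x b => (x, b))
      (fun g x => g (Sum.inl x))
      (fun g x l y hy => (Prg.rel_ask.1 hy).2)
      (fun g x => ⟨_, Prg.rel_ask.2 ⟨rfl, rfl⟩⟩)
      (fun g l y hy a ha => by
        rw [(Prg.rel_ask.1 hy).1, List.mem_singleton] at ha
        subst ha
        rfl)
    refine Cal.mono (σ := _) h1 fun c f => ?_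
    rw [Prg.size_ask, Fintype.card_fun, Fintype.card_fin, Fintype.card_fin]
    simp only [card_singleton, pow_one, sum_const, card_univ, Fintype.card_fin, smul_eq_mul]
    exact le_rfl

theorem sg_le {d k Q e : ℕ} (hd : 0 < d) (hk : 0 < k) (he : 0 < e) (heQ : e ≤ Q ^ d) :
    ∀ h c f : ℕ, f ≤ Q → sg d k Q e h c f ≤
      ((2 * d + 1) * (Q ^ d / e + 2)) ^ h * ((c / e + 1) * (k ^ d * Q ^ (d + 1))) := by
  intro h
  induction h with
  | zero =>
    intro c f hf
    rw [pow_zero, one_mul]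
    show c * f ≤ _
    have h1 : c ≤ (c / e + 1) * e := by
      rw [mul_comm]
      exact (Nat.lt_mul_div_succ c he).le
    calc c * f ≤ ((c / e + 1) * e) * Q := Nat.mul_le_mul h1 hf
      _ ≤ ((c / e + 1) * Q ^ d) * Q := Nat.mul_le_mul_right _ (Nat.mul_le_mul_left _ heQ)
      _ = (c / e + 1) * (1 * Q ^ (d + 1)) := by rw [pow_succ]; ring
      _ ≤ (c / e + 1) * (k ^ d * Q ^ (d + 1)) :=
        Nat.mul_le_mul_left _ (Nat.mul_le_mul_right _ (Nat.one_le_pow _ _ hk))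
  | succ h ih =>
    intro c f hf
    have hQ : 0 < Q := by
      rcases Nat.eq_zero_or_pos Q with h0 | h0
      · rw [h0, zero_pow hd.ne'] at heQ
        omega
      · exact h0
    set ρ := c / e + 1 with hρ
    set β := Q ^ d / e + 1 with hβ
    have hc' : ρ * f * Q ^ (d - 1) ≤ ρ * Q ^ d := by
      calc ρ * f * Q ^ (d - 1) ≤ ρ * Q * Q ^ (d - 1) :=
            Nat.mul_le_mul_right _ (Nat.mul_le_mul_left _ hf)
        _ = ρ * (Q ^ (d - 1) * Q) := by ring
        _ = ρ * Q ^ d := by rw [← pow_succ, Nat.sub_add_cancel hd]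
    have hρ' : ρ * f * Q ^ (d - 1) / e + 1 ≤ ρ * (β + 1) := by
      have h1 : Q ^ d ≤ e * β := (Nat.lt_mul_div_succ (Q ^ d) he).le
      have h2 : ρ * f * Q ^ (d - 1) ≤ e * (ρ * β) := by
        calc ρ * f * Q ^ (d - 1) ≤ ρ * Q ^ d := hc'
          _ ≤ ρ * (e * β) := Nat.mul_le_mul_left _ h1
          _ = e * (ρ * β) := by ring
      have h3 : ρ * f * Q ^ (d - 1) / e ≤ ρ * β := Nat.div_le_of_le_mul h2
      have h4 : 1 ≤ ρ := Nat.le_add_left _ _
      calc ρ * f * Q ^ (d - 1) / e + 1 ≤ ρ * β + ρ := by omega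
        _ = ρ * (β + 1) := by ring
    have h5 := ih (ρ * f * Q ^ (d - 1)) Q le_rfl
    have hβ2 : Q ^ d / e + 2 = β + 1 := rfl
    rw [hβ2] at h5 ⊢
    set W := k ^ d * Q ^ (d + 1) with hW
    set K := (2 * d + 1) * (β + 1) with hK
    have h6 : sg d k Q e h (ρ * f * Q ^ (d - 1)) Q ≤ K ^ h * (β + 1) * (ρ * W) := by
      calc sg d k Q e h (ρ * f * Q ^ (d - 1)) Q ≤
            K ^ h * ((ρ * f * Q ^ (d - 1) / e + 1) * W) := h5
        _ ≤ K ^ h * (ρ * (β + 1) * W) :=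
          Nat.mul_le_mul_left _ (Nat.mul_le_mul_right _ hρ')
        _ = K ^ h * (β + 1) * (ρ * W) := by ring
    have h7 : k ^ d * (Q ^ d * (ρ * f)) ≤ ρ * W := by
      calc k ^ d * (Q ^ d * (ρ * f)) ≤ k ^ d * (Q ^ d * (ρ * Q)) :=
            Nat.mul_le_mul_left _ (Nat.mul_le_mul_left _ (Nat.mul_le_mul_left _ hf))
        _ = ρ * W := by rw [hW, pow_succ]; ring
    have h8 : 1 ≤ K ^ h * (β + 1) := by
      refine Nat.mul_pos (Nat.pow_pos ?_) (Nat.succ_pos _)
      rw [hK]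
      positivity
    show 2 * (d * sg d k Q e h (ρ * f * Q ^ (d - 1)) Q) + k ^ d * (Q ^ d * (ρ * f)) ≤ _
    calc 2 * (d * sg d k Q e h (ρ * f * Q ^ (d - 1)) Q) + k ^ d * (Q ^ d * (ρ * f)) ≤
          2 * (d * (K ^ h * (β + 1) * (ρ * W))) + K ^ h * (β + 1) * (ρ * W) := by
          refine Nat.add_le_add (Nat.mul_le_mul_left _ (Nat.mul_le_mul_left _ h6)) ?_
          exact h7.trans (Nat.le_mul_of_pos_left _ h8)
      _ = K ^ (h + 1) * (ρ * W) := by rw [pow_succ, hK]; ring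

/-- The size with any set without 3-term progressions. -/
theorem tree_size {d k : ℕ} (hd : 0 < d) (hk : 0 < k) (q Q : ℕ) (hQ : q + 2 * k ≤ Q)
    (E : Finset (Fin d → ℕ)) (hE : ThreeAPFree (E : Set (Fin d → ℕ)))
    (hne : E.Nonempty) (hq : ∀ a ∈ E, ∀ i, a i < q) (h : ℕ) (r : Fin k) :
    ∃ P : NBP (Adr d k h) (Fin k), Thrifty P ∧ (∀ g, P.Accepts g ↔ val d k h g = r) ∧
      P.size ≤ ((2 * d + 1) * (Q ^ d / E.card + 2)) ^ h * (2 * (k ^ d * Q ^ (d + 1))) + 2 := by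
  have hQ0 : 0 < Q := by omega
  obtain ⟨P, h1, h2⟩ := cal_tree E hE hne hq hQ h Unit Unit (fun z _ _ => z = r)
  have hE0 : 0 < E.card := hne.card_pos
  have hEQ : E.card ≤ Q ^ d := by
    have h3 : E ⊆ Fintype.piFinset fun _ : Fin d => range Q := by
      intro a ha
      rw [Fintype.mem_piFinset]
      intro i
      have := hq a ha i
      rw [mem_range]
      omega
    have h4 := card_le_card h3
    rw [Fintype.card_piFinset, prod_const, card_range, card_univ, Fintype.card_fin] at h4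
    exact h4
  let P' : Prg (Adr d k h) (Fin k) Unit Unit :=
    ((Prg.pu fun _ _ => True).seq P).seq (Prg.pu fun _ _ => True)
  have hrel : ∀ g l, P'.Rel g () l () ↔ P.Rel g ((), ()) l ((), ()) := by
    intro g l
    constructor
    · intro h3
      obtain ⟨l₁, l₂, n, h4, h5, rfl⟩ := Prg.rel_seq.1 h3
      obtain ⟨l₃, l₄, n', h6, h7, rfl⟩ := Prg.rel_seq.1 h4
      rw [(Prg.rel_pu.1 h5).1, (Prg.rel_pu.1 h6).1, List.append_nil, List.nil_append]
      exact h7
    · intro h3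
      exact Prg.rel_seq.2 ⟨l, [], ((), ()), Prg.rel_seq.2 ⟨[], l, ((), ()),
        Prg.rel_pu.2 ⟨rfl, trivial⟩, h3, rfl⟩, Prg.rel_pu.2 ⟨rfl, trivial⟩,
        (List.append_nil l).symm⟩
  refine ⟨P'.toNBP, ?_, ?_, ?_⟩
  · intro g l qq hqq hl p hp a ha
    obtain ⟨l', h3, h4⟩ := Prg.acc_toNBP hqq hl
    exact (h2 g _ _).2 l' ((hrel g l').1 h3) a (h4 p hp a ha)
  · intro g
    rw [Prg.accepts_toNBP]
    constructor
    · rintro ⟨l, hl⟩
      exact ((h2 g _ _).1.1 ⟨l, (hrel g l).1 hl⟩).2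
    · intro h3
      obtain ⟨l, hl⟩ := (h2 g ((), ()) ((), ())).1.2 ⟨rfl, h3⟩
      exact ⟨l, (hrel g l).2 hl⟩
  · rw [Prg.size_toNBP, Prg.size_seq, Prg.size_seq, Prg.size_pu, Prg.size_pu]
    have h3 := sg_le hd hk hE0 hEQ h 1 1 hQ0
    rw [Fintype.card_unit] at h1
    have h4 : 1 / E.card + 1 ≤ 2 := by
      have := Nat.div_le_self 1 E.card
      omega
    have h5 : ((2 * d + 1) * (Q ^ d / E.card + 2)) ^ h *
        ((1 / E.card + 1) * (k ^ d * Q ^ (d + 1))) ≤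
        ((2 * d + 1) * (Q ^ d / E.card + 2)) ^ h * (2 * (k ^ d * Q ^ (d + 1))) :=
      Nat.mul_le_mul_left _ (Nat.mul_le_mul_right _ h4)
    omega

end Pool.Agent.Lib.TE
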